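import Mathlib
import Pool.Agent.H91.SigmaMean

set_option autoImplicit false

namespace Pool.Agent.Results.MP_9f54b8_an.AreaFails

/-- `f` is analytic and univalent in `|z| > 1` with Laurent expansion `z + ∑ b n z^(-n)` there. -/
def InSigma (f : ℂ → ℂ) (b : ℕ → ℂ) : Prop :=
  DifferentiableOn ℂ f {z | 1 < ‖z‖} ∧ Set.InjOn f {z | 1 < ‖z‖} ∧
    ∀ z : ℂ, 1 < ‖z‖ → HasSum (fun n : ℕ => b n * z⁻¹ ^ n) (f z - z)

open Pool.Agent.H91.SigmaMean in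
theorem result :
    ∃ α : ℝ, 0 < α ∧ α < 1 ∧ ∃ (f g : ℂ → ℂ) (b c A : ℕ → ℂ),
      InSigma f b ∧ InSigma g c ∧ b 0 = 0 ∧ c 0 = 0 ∧
      (∀ z : ℂ, 1 < ‖z‖ → f z ≠ 0 ∧ g z ≠ 0) ∧
      (∀ z : ℂ, 1 < ‖z‖ → HasSum (fun n : ℕ => A n * z⁻¹ ^ n)
        (z * ((f z / z) ^ ((1 - α : ℝ) : ℂ) * (g z / z) ^ (α : ℂ)) - z)) ∧
      ∃ N : ℕ, 1 < ∑ n ∈ Finset.range N, (n : ℝ) * ‖A n‖ ^ 2 := by
  refine ⟨1 / 2, by norm_num, by norm_num, f 1, f (-1), co (P 1) 2, co (P (-1)) 2, co Q 4,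
    ⟨f_diff 1 (by simp), f_inj 1 (by simp) (by simp), fun z hz => ?_⟩,
    ⟨f_diff (-1) (by simp), f_inj (-1) (by simp) (by simp), fun z hz => ?_⟩,
    by simp [co], by simp [co], fun z hz => ⟨f_ne 1 z hz, f_ne (-1) z hz⟩, fun z hz => ?_,
    8, sum_gt⟩
  · exact hasSum_co (P 1) (P_diff 1 (by simp)) (P_zero 1) 2 (by norm_num) z hz
  · exact hasSum_co (P (-1)) (P_diff (-1) (by simp)) (P_zero (-1)) 2 (by norm_num) z hz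
  · rw [mean_eq z hz]
    exact hasSum_co Q Q_diff Q_zero 4 (by norm_num) z hz

end Pool.Agent.Results.MP_9f54b8_an.AreaFails
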